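import Mathlib

/-!
# The theorem of Crittenden and Vanden Eynden, weak form

If `n` residue classes do not cover the integers then they miss one of any `2 ^ n` consecutive
integers (helper88, MP_4f7c28).
-/

namespace CVE

/-- a sum of exponentials -/
noncomputable def ev (l : List (ℂ × ℂ)) (x : ℤ) : ℂ := (l.map fun p => p.1 * p.2 ^ x).sum

lemma ev_cons (p : ℂ × ℂ) (l : List (ℂ × ℂ)) (x : ℤ) : ev (p :: l) x = p.1 * p.2 ^ x + ev l x := by
  simp [ev]

lemma ev_append (l l' : List (ℂ × ℂ)) (x : ℤ) : ev (l ++ l') x = ev l x + ev l' x := by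
  simp [ev]

lemma ev_step (p : ℂ × ℂ) (hp : p.2 ≠ 0) (l : List (ℂ × ℂ)) (hl : ∀ r ∈ l, r.2 ≠ 0) (x : ℤ) :
    ev (l.map fun r => (r.1 * (r.2 - p.2), r.2)) x =
      ev (p :: l) (x + 1) - p.2 * ev (p :: l) x := by
  have key : ∀ l : List (ℂ × ℂ), (∀ r ∈ l, r.2 ≠ 0) →
      ev (l.map fun r => (r.1 * (r.2 - p.2), r.2)) x = ev l (x + 1) - p.2 * ev l x := by
    intro l
    induction l with
    | nil => intro _; simp [ev]
    | cons r l ih =>
      intro h
      rw [List.map_cons, ev_cons, ev_cons, ev_cons, ih fun r' hr' => h r' (List.mem_cons_of_mem _ hr'),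
        zpow_add₀ (h r (List.mem_cons_self ..)), zpow_one]
      ring
  rw [key l hl, ev_cons, ev_cons, zpow_add₀ hp, zpow_one]
  ring

/-- A sum of `n` exponentials with `n` consecutive zeros is zero. -/
theorem ev_zero (n : ℕ) : ∀ l : List (ℂ × ℂ), l.length = n → (∀ p ∈ l, p.2 ≠ 0) → ∀ y : ℤ,
    (∀ i : ℕ, i < n → ev l (y + i) = 0) → ∀ x, ev l x = 0 := by
  induction n with
  | zero =>
    intro l hl _ y _ x
    rw [List.length_eq_zero_iff.1 hl]
    simp [ev]
  | succ n ih =>
    intro l hl hne y hy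
    obtain ⟨p, l, rfl⟩ : ∃ p l', l = p :: l' := by
      cases l with
      | nil => simp at hl
      | cons p l' => exact ⟨p, l', rfl⟩
    have hp := hne p (List.mem_cons_self ..)
    have hl' : ∀ r ∈ l, r.2 ≠ 0 := fun r hr => hne r (List.mem_cons_of_mem _ hr)
    have h1 : ∀ x, ev (p :: l) (x + 1) = p.2 * ev (p :: l) x := by
      intro x
      have h2 := ih (l.map fun r => (r.1 * (r.2 - p.2), r.2)) (by simpa using hl) (by
        intro r hr
        obtain ⟨r', hr', rfl⟩ := List.mem_map.1 hr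
        exact hl' r' hr') y (by
        intro i hi
        rw [ev_step p hp l hl']
        have h3 := hy i (by omega)
        have h4 := hy (i + 1) (by omega)
        push_cast at h4
        rw [add_assoc, h3, h4]
        ring) x
      rw [ev_step p hp l hl'] at h2
      exact sub_eq_zero.1 h2
    have h0 : ev (p :: l) y = 0 := by simpa using hy 0 (by omega)
    intro x
    refine Int.inductionOn' x y h0 ?_ ?_
    · intro k _ hk
      rw [h1, hk, mul_zero]
    · intro k _ hk
      have h2 := h1 (k - 1)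
      rw [sub_add_cancel, hk] at h2
      exact (mul_eq_zero.1 h2.symm).resolve_left hp

/-- the root of unity of order `m` -/
noncomputable def zt (m : ℕ) : ℂ := Complex.exp (2 * Real.pi * Complex.I / m)

lemma zt_ne (m : ℕ) : zt m ≠ 0 := Complex.exp_ne_zero _

lemma zt_iff {m : ℕ} (hm : m ≠ 0) (k : ℤ) : zt m ^ k = 1 ↔ (m : ℤ) ∣ k :=
  (Complex.isPrimitiveRoot_exp m hm).zpow_eq_one_iff_dvd k

lemma exists_ev {ι : Type*} (s : Finset ι) (a : ι → ℤ) (m : ι → ℕ) :
    ∃ l : List (ℂ × ℂ), l.length = 2 ^ s.card ∧ (∀ p ∈ l, p.2 ≠ 0) ∧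
      ∀ x, ev l x = ∏ i ∈ s, (1 - zt (m i) ^ (x - a i)) := by
  classical
  induction s using Finset.induction_on with
  | empty => exact ⟨[(1, 1)], by simp, by simp, by simp [ev]⟩
  | insert i s hi ih =>
    obtain ⟨l, h1, h2, h3⟩ := ih
    refine ⟨l ++ l.map fun p => (-(p.1 * zt (m i) ^ (-a i)), p.2 * zt (m i)), ?_, ?_, ?_⟩
    · rw [List.length_append, List.length_map, h1, Finset.card_insert_of_notMem hi, pow_succ]
      ring
    · intro p hp
      rcases List.mem_append.1 hp with hp | hp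
      · exact h2 p hp
      · obtain ⟨r, hr, rfl⟩ := List.mem_map.1 hp
        exact mul_ne_zero (h2 r hr) (zt_ne _)
    · intro x
      have key : ∀ l : List (ℂ × ℂ), ev (l.map fun p => (-(p.1 * zt (m i) ^ (-a i)),
          p.2 * zt (m i))) x = -(zt (m i) ^ (x - a i)) * ev l x := by
        intro l
        induction l with
        | nil => simp [ev]
        | cons r l ih =>
          rw [List.map_cons, ev_cons, ev_cons, ih, mul_zpow, sub_eq_add_neg x,
            zpow_add₀ (zt_ne _) x]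
          ring
      rw [ev_append, key, Finset.prod_insert hi, ← h3]
      ring

/-- **Crittenden and Vanden Eynden, weak form.** -/
theorem cve {ι : Type*} (s : Finset ι) (a : ι → ℤ) (m : ι → ℕ) (hm : ∀ i ∈ s, m i ≠ 0) {x₀ : ℤ}
    (h : ∀ i ∈ s, ¬ (m i : ℤ) ∣ x₀ - a i) (y : ℤ) :
    ∃ x, y ≤ x ∧ x < y + 2 ^ s.card ∧ ∀ i ∈ s, ¬ (m i : ℤ) ∣ x - a i := by
  obtain ⟨l, h1, h2, h3⟩ := exists_ev s a m
  by_contra hno
  have h4 := ev_zero (2 ^ s.card) l h1 h2 y (by
    intro i hi
    rw [h3, Finset.prod_eq_zero_iff]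
    by_contra h5
    refine hno ⟨y + i, by omega, ?_, fun j hj h6 => h5 ⟨j, hj, ?_⟩⟩
    · have : ((i : ℕ) : ℤ) < ((2 ^ s.card : ℕ) : ℤ) := by exact_mod_cast hi
      push_cast at this
      omega
    · rw [(zt_iff (hm j hj) _).2 h6, sub_self]) x₀
  rw [h3, Finset.prod_eq_zero_iff] at h4
  obtain ⟨i, hi, h5⟩ := h4
  exact h i hi ((zt_iff (hm i hi) _).1 (sub_eq_zero.1 h5).symm)

end CVE
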